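import Pool.Agent.Helpers.H4_STS2

namespace Pool.Agent.Results.MP_9c4767_co.FaithfulAction

universe u

/-- `B` is the set of triples of a Steiner triple system with point set `V`. -/
structure IsSteinerTripleSystem {V : Type*} (B : Finset (Finset V)) : Prop where
  card_three : ∀ b ∈ B, b.card = 3
  pair : ∀ x y : V, x ≠ y → ∃! b : Finset V, b ∈ B ∧ x ∈ b ∧ y ∈ b

/-- The group `G` acts faithfully on some Steiner triple system on `v` points: there is an
injective homomorphism from `G` to the permutations of the points, each of which maps the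
set of triples onto itself. -/
def ActsFaithfullyOnSTS (G : Type u) [Group G] (v : ℕ) : Prop :=
  ∃ B : Finset (Finset (Fin v)), IsSteinerTripleSystem B ∧
    ∃ φ : G →* Equiv.Perm (Fin v), Function.Injective φ ∧
      ∀ g : G, B.image (fun b => b.image (φ g)) = B

open H4STS

/-- the sign-type choice function on the cyclic factor -/
def c5 (t : ZMod 5) : ZMod 5 := if t = 0 then 1 else -t

lemma c5_1 : ∀ t : ZMod 5, c5 t + c5 t ≠ 0 := by decide
lemma c5_2 : ∀ t : ZMod 5, (-t + c5 t) + (-t + c5 t) ≠ 0 := by decide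
lemma c5_3 : ∀ t : ZMod 5, c5 t + c5 t ≠ t := by decide

theorem main (G : Type u) [Group G] [Fintype G] :
    ∃ v : ℕ, v ≤ 480 * (Fintype.card G) ^ 2 ∧ ActsFaithfullyOnSTS G v := by
  classical
  set n := Fintype.card G with hn'
  have hn : 0 < n := Fintype.card_pos
  set r := Nat.log 2 n + 4 with hr
  have hexp : ∀ i : Fin r → ZMod 2, i + i = 0 := by
    intro i; funext k
    have : ∀ a : ZMod 2, a + a = 0 := by decide
    exact this (i k)
  have hcardI : Fintype.card (Fin r → ZMod 2) = 2 ^ r := by simp [ZMod.card]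
  have hcardH : Fintype.card (G × Multiplicative (ZMod 5)) = n * 5 := by
    rw [Fintype.card_prod, Fintype.card_multiplicative, ZMod.card]
  have h2r1 : 2 ^ r ≤ 16 * n := by
    have : 2 ^ Nat.log 2 n ≤ n := Nat.pow_log_le_self 2 hn.ne'
    calc 2 ^ r = 16 * 2 ^ Nat.log 2 n := by rw [hr, pow_add]; ring
      _ ≤ 16 * n := Nat.mul_le_mul_left _ this
  have h2r2 : 8 * n < 2 ^ r := by
    have : n < 2 ^ (Nat.log 2 n + 1) := Nat.lt_pow_succ_log_self (by norm_num) n
    calc 8 * n < 8 * 2 ^ (Nat.log 2 n + 1) := by omega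
      _ = 2 ^ r := by rw [hr, pow_add, pow_add]; ring
  have hEven : Even (Fintype.card (Fin r → ZMod 2)) := by
    rw [hcardI]
    exact ⟨2 ^ (r - 1), by
      have : r = (r - 1) + 1 := by omega
      nth_rewrite 1 [this]; rw [pow_succ]; ring⟩
  obtain ⟨v, B, hv, hB, φ, hφ, hφB⟩ := aux (H := G × Multiplicative (ZMod 5))
    (I := Fin r → ZMod 2) hexp hEven (by rw [hcardH, hcardI]; omega)
    (fun g => (1, Multiplicative.ofAdd (c5 (Multiplicative.toAdd g.2))))
    (fun g h => c5_1 (Multiplicative.toAdd g.2) (congrArg (fun x => Multiplicative.toAdd x.2) h))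
    (fun g h => c5_2 (Multiplicative.toAdd g.2) (congrArg (fun x => Multiplicative.toAdd x.2) h))
    (fun g h => c5_3 (Multiplicative.toAdd g.2) (congrArg (fun x => Multiplicative.toAdd x.2) h))
  refine ⟨v, ?_, B, ⟨hB.card_three, hB.pair⟩, φ.comp (MonoidHom.inl G (Multiplicative (ZMod 5))), ?_, ?_⟩
  · refine hv.trans ?_
    rw [hcardH, hcardI]
    calc 6 * (n * 5 * 2 ^ r) ≤ 6 * (n * 5 * (16 * n)) := by gcongr
      _ = 480 * n ^ 2 := by ring
  · intro a b hab
    have := hφ hab
    exact (Prod.ext_iff.mp this).1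
  · intro g; exact hφB _

/-- There is a constant `c` such that every finite group `G` acts faithfully on some Steiner
triple system with at most `|G| ^ c` points. -/
theorem result : ∃ c : ℕ, ∀ (G : Type u) [Group G] [Fintype G],
    ∃ v : ℕ, v ≤ (Fintype.card G) ^ c ∧ ActsFaithfullyOnSTS G v := by
  refine ⟨11, ?_⟩
  intro G _ _
  have hn : 0 < Fintype.card G := Fintype.card_pos
  rcases Nat.lt_or_ge 1 (Fintype.card G) with h | h
  · obtain ⟨v, hv, hG⟩ := main G
    refine ⟨v, hv.trans ?_, hG⟩
    have h2 : 2 ^ 9 ≤ (Fintype.card G) ^ 9 := Nat.pow_le_pow_left h 9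
    calc 480 * (Fintype.card G) ^ 2 ≤ (Fintype.card G) ^ 9 * (Fintype.card G) ^ 2 := by
          apply Nat.mul_le_mul_right; omega
      _ = (Fintype.card G) ^ 11 := by ring
  · have h1 : Fintype.card G = 1 := by omega
    haveI : Subsingleton G := Fintype.card_le_one_iff_subsingleton.mp h1.le
    refine ⟨1, by rw [h1]; simp, ∅, ⟨by simp, ?_⟩, 1, ?_, by simp⟩
    · intro x y hxy; exact absurd (Subsingleton.elim x y) hxy
    · intro a b _; exact Subsingleton.elim a b

end Pool.Agent.Results.MP_9c4767_co.FaithfulAction
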